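import Pool.Agent.H24.SCG2.Base3
import Pool.Agent.H15.SCG2.PAR

/-!
Module EXZ1 of the project SCG2: existence in rank four, first group.
-/

set_option autoImplicit false

namespace Pool.Agent.H44.SCG2

open Pool.SCG Matrix

section

variable {F : Type} [Field F]

/-- a generator of the multiplicative group -/
theorem exists_tau [Finite F] (hq : Nat.card F % 6 = 1) :
    ∃ τ : F, τ ≠ 0 ∧ τ ^ 2 ≠ 1 ∧ τ ^ 3 ≠ 1 ∧ ∀ x : F, x ≠ 0 → ∃ n : ℕ, τ ^ n = x := by
  classical
  have := Fintype.ofFinite F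
  have h1 : 1 < Nat.card F := by
    rw [Nat.card_eq_fintype_card]
    exact Fintype.one_lt_card
  have hcard : 6 ≤ Nat.card Fˣ := by
    rw [Nat.card_units]
    omega
  obtain ⟨g, hg⟩ := IsCyclic.exists_generator (α := Fˣ)
  have h2 : orderOf g = Nat.card Fˣ := orderOf_eq_card_of_forall_mem_zpowers hg
  refine ⟨(g : F), g.ne_zero, ?_, ?_, ?_⟩
  · intro h
    have h3 : g ^ 2 = 1 := Units.ext (by simpa using h)
    have h4 : orderOf g ≤ 2 := orderOf_le_of_pow_eq_one (by norm_num) h3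
    omega
  · intro h
    have h3 : g ^ 3 = 1 := Units.ext (by simpa using h)
    have h4 : orderOf g ≤ 3 := orderOf_le_of_pow_eq_one (by norm_num) h3
    omega
  · intro x hx
    have h3 := hg (Units.mk0 x hx)
    rw [← mem_powers_iff_mem_zpowers] at h3
    obtain ⟨n, hn⟩ := h3
    refine ⟨n, ?_⟩
    have h4 := congrArg (fun u : Fˣ => (u : F)) hn
    simpa using h4

/-- elements with the same image under `iota` differ by a scalar -/
theorem iota_eq (hker : ∀ x : Cor F, iota F x = 1 → x ∈ Zs F) {x y : Cor F}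
    (h : iota F x = iota F y) : ∃ z ∈ Zs F, x = z * y :=
  ⟨x * y⁻¹, hker _ (by rw [map_mul, map_inv, h, mul_inv_cancel]), by group⟩

/-- the image of the subgroup generated by a set -/
theorem closure_image (T : Set (Cor F)) :
    Subgroup.closure (iota F '' T) = (Subgroup.closure T).map (iota F) := by
  rw [MonoidHom.map_closure]

theorem intersection (hker : ∀ x : Cor F, iota F x = 1 → x ∈ Zs F)
    (hz : ∀ z ∈ Zs F, iota F z = 1) {S T U : Set (Cor F)}
    (h : ∀ x ∈ Subgroup.closure (S ∪ Zs F), x ∈ Subgroup.closure (T ∪ Zs F) →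
      x ∈ Subgroup.closure (U ∪ Zs F)) (x : MulAut (SL3 F))
    (hS : x ∈ Subgroup.closure (iota F '' S)) (hT : x ∈ Subgroup.closure (iota F '' T)) :
    x ∈ Subgroup.closure (iota F '' U) := by
  rw [closure_image] at hS hT ⊢
  obtain ⟨y, hy, rfl⟩ := hS
  obtain ⟨y', hy', he⟩ := hT
  obtain ⟨z, hzz, hyz⟩ := iota_eq hker he.symm
  have h1 : y ∈ Subgroup.closure (S ∪ Zs F) :=
    Subgroup.closure_mono Set.subset_union_left hy
  have h2 : y ∈ Subgroup.closure (T ∪ Zs F) := by
    rw [hyz]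
    exact mul_mem (Subgroup.subset_closure (Or.inr hzz))
      (Subgroup.closure_mono Set.subset_union_left hy')
  obtain ⟨w, hw, v, hv, hyw⟩ := closure_zs U y (h y h1 h2)
  refine ⟨w, hw, ?_⟩
  rw [hyw, map_mul, hz v hv, mul_one]

theorem power (hker : ∀ x : Cor F, iota F x = 1 → x ∈ Zs F) {g d : Cor F} (h3 : g ^ 3 = 1)
    (h : ∀ k : ℕ, k = 1 ∨ k = 2 → ∀ z ∈ Zs F, g ^ k * d ≠ z * (d * g ^ k)) (k : ℕ)
    (hk : iota F g ^ k * iota F d = iota F d * iota F g ^ k) : iota F g ^ k = 1 := by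
  have h1 : g ^ k = g ^ (k % 3) := pow_eq_pow_mod k h3
  rw [← map_pow, ← map_mul, ← map_mul, h1] at hk
  rw [← map_pow, h1]
  obtain ⟨z, hz, he⟩ := iota_eq hker hk
  have h2 : k % 3 = 0 ∨ (k % 3 = 1 ∨ k % 3 = 2) := by omega
  rcases h2 with h2 | h2
  · rw [h2, pow_zero, map_one]
  · exact absurd he (h (k % 3) h2 z hz)

theorem ne_one (hker : ∀ x : Cor F, iota F x = 1 → x ∈ Zs F) {x : Cor F} (h : x ∉ Zs F) :
    iota F x ≠ 1 := fun h' => h (hker x h')

theorem ne_of (hker : ∀ x : Cor F, iota F x = 1 → x ∈ Zs F) {x y : Cor F}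
    (h : ∀ z ∈ Zs F, x ≠ z * y) : iota F x ≠ iota F y := by
  intro h'
  obtain ⟨z, hz, he⟩ := iota_eq hker h'
  exact h z hz he

end

theorem exz1_thm (hST4B : ST4BStmt) (hEXR : EXRStmt) (hEXSZ : EXSZStmt) (hEXCZ : EXCZStmt)
    (hEXGZ : EXGZStmt) (hIOTZ : IOTZStmt) : EXZ1Stmt := by
  intro F _ _ hF
  obtain ⟨-, -, -, -, h2, h3, -⟩ := Pool.Agent.H15.SCG2.par_thm F hF
  obtain ⟨τ, t0, t1, tl, tgen⟩ := exists_tau (F := F) hF.1
  obtain ⟨a, b, c, d, hgens, -, -, -, -, haa, hbb, hcc, hdd, hac, had, hbd⟩ :=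
    hEXR F τ h2 h3 t0
  obtain ⟨hbc3, hkd, hka, ha, hb, hc, hd, hab, hbc, hcd⟩ := hEXSZ F τ h2 h3 t0 t1 a b c d hgens
  have hC := hEXCZ F τ h2 h3 t0 t1 a b c d hgens
  have hgen := hEXGZ F τ h2 h3 t0 ⟨τ, t0, tl⟩ tgen a b c d hgens
  obtain ⟨hrange, -, hker, hz⟩ := hIOTZ F
  have hmul : ∀ x y : Cor F, x * y = y * x → iota F x * iota F y = iota F y * iota F x := by
    intro x y h
    rw [← map_mul, h, map_mul]
  have hsq : ∀ x : Cor F, x * x = 1 → iota F x * iota F x = 1 := by
    intro x h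
    rw [← map_mul, h, map_one]
  have him3 : ∀ x y z : Cor F, ({iota F x, iota F y, iota F z} : Set (MulAut (SL3 F))) =
      iota F '' {x, y, z} := by
    intro x y z
    rw [Set.image_insert_eq, Set.image_insert_eq, Set.image_singleton]
  have him2 : ∀ x y : Cor F, ({iota F x, iota F y} : Set (MulAut (SL3 F))) =
      iota F '' {x, y} := by
    intro x y
    rw [Set.image_insert_eq, Set.image_singleton]
  have hstr : IsStringC 4 ![iota F a, iota F b, iota F c, iota F d] := by
    refine hST4B (MulAut (SL3 F)) (iota F a) (iota F b) (iota F c) (iota F d)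
      (ne_one hker ha) (ne_one hker hb) (ne_one hker hc) (ne_one hker hd) (hsq a haa) (hsq b hbb)
      (hsq c hcc) (hsq d hdd) (hmul a c hac) (hmul a d had) (hmul b d hbd) (ne_of hker hab)
      (ne_of hker hbc) (ne_of hker hcd) ?_ ?_ ?_
    · intro k hk
      rw [← map_mul] at hk ⊢
      exact power hker hbc3 hkd k hk
    · intro k hk
      rw [← map_mul] at hk ⊢
      exact power hker hbc3 hka k hk
    · intro x hx hx'
      rw [him3] at hx hx'
      rw [him2]
      exact intersection hker hz hC x hx hx'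
  refine ⟨_, hstr, ?_⟩
  have hr : Set.range ![iota F a, iota F b, iota F c, iota F d] =
      iota F '' ({a, b, c, d} : Set (Cor F)) := by
    rw [Set.image_insert_eq, Set.image_insert_eq, Set.image_insert_eq, Set.image_singleton]
    ext x
    constructor
    · rintro ⟨i, rfl⟩
      fin_cases i <;> simp
    · intro hx
      simp only [Set.mem_insert_iff, Set.mem_singleton_iff] at hx
      rcases hx with h | h | h | h
      · exact ⟨0, by simp [h]⟩
      · exact ⟨1, by simp [h]⟩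
      · exact ⟨2, by simp [h]⟩
      · exact ⟨3, by simp [h]⟩
  rw [hr, closure_image, hgen, ← MonoidHom.range_eq_map, hrange]

end Pool.Agent.H44.SCG2
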