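import Pool.Agent.H24.SCG2.Stmts4

/-!
Module FINAL of the project SCG2: all odd `q` which are not squares.
-/

set_option autoImplicit false

namespace Pool.Agent.H44.SCG2

open Pool.SCG Matrix

/-- if three divides the order of a finite field, the characteristic is three -/
theorem three_eq_zero (F : Type) [Field F] [Finite F] (h : 3 ∣ Nat.card F) : (3 : F) = 0 := by
  have := Fintype.ofFinite F
  obtain ⟨p, hp⟩ := CharP.exists F
  have hpp : Fact p.Prime := ⟨CharP.char_is_prime F p⟩
  obtain ⟨n, -, hn⟩ := FiniteField.card F p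
  rw [Nat.card_eq_fintype_card, hn] at h
  have h1 : 3 ∣ p := Nat.prime_three.dvd_of_dvd_pow h
  have h2 : 3 = p := (Nat.prime_dvd_prime_iff_eq Nat.prime_three hpp.out).1 h1
  subst h2
  have := CharP.cast_eq_zero F 3
  exact_mod_cast this

theorem final_thm (hZ : FINZStmt) (hQ : FINQStmt) (h5 : FIN5Stmt) : FINALStmt := by
  intro F _ _ hodd hns
  have h : Nat.card F % 6 = 1 ∨ Nat.card F % 6 = 3 ∨ Nat.card F % 6 = 5 := by
    have := Nat.odd_iff.1 hodd
    omega
  rcases h with h | h | h
  · exact hZ F ⟨h, hns⟩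
  · have h3 : 3 ∣ Nat.card F := by omega
    exact hQ F ⟨three_eq_zero F h3, hns⟩
  · exact h5 F h

end Pool.Agent.H44.SCG2
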